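import Pool.Agent.H700Z.QHDefs
import Pool.Agent.H700Z.QHProof

namespace Pool.Agent.Results.MP_afcf00_al.ANotGenAffine

open Pool.Agent.H700Z.QH

/-- For every `n ≥ 1` the quaternionic Heisenberg group `N n` with its Carnot metric has a
quasi-isometry that is at infinite distance from every generalized affine map. -/
theorem result (n : ℕ) (hn : 1 ≤ n) :
    ∃ f : N n → N n, IsQuasiIsometry f ∧
      ∀ G ∈ generalizedAffine n, ¬ FiniteDistance f G :=
  ⟨S, S_qi hn, not_close hn⟩

end Pool.Agent.Results.MP_afcf00_al.ANotGenAffine
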